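import Pool.Agent.TH613.ZK.Poly
import Mathlib.Analysis.Complex.Polynomial.Basic

/-!
# The remaining fields: their automorphism groups, and the Galois fields among them
-/

set_option autoImplicit false

namespace Pool.Agent.TH613.ZK

open Pool.Agent.TH613.MU

theorem ap_mul {K : NF} (c d : Aut K) (x : K) : ap (c * d) x = ap c (ap d x) := rfl

theorem aut_ext {K : NF} {c d : Aut K} (h : ∀ x, ap c x = ap d x) : c = d :=
  AlgEquiv.ext h

theorem exists_aut {K : NF} (hN : Normal ℚ K) (σ τ : K →+* ℂ) :
    ∃ c : Aut K, ∀ x, σ (ap c x) = τ x := by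
  classical
  let _ : Algebra K ℂ := σ.toAlgebra
  have : IsScalarTower ℚ K ℂ := IsScalarTower.of_algebraMap_eq (fun q => by
    rw [eq_ratCast, eq_ratCast, map_ratCast])
  let τ' : K →ₐ[ℚ] ℂ := { τ with commutes' := fun q => by
                                  change τ (algebraMap ℚ K q) = algebraMap ℚ ℂ q
                                  rw [eq_ratCast, eq_ratCast, map_ratCast] }
  refine ⟨(show Aut K from AlgHom.restrictNormal' τ' K), ?_⟩
  intro x
  exact AlgHom.restrictNormal_commutes τ' K x

/-- Two involutions of a remaining field are equal. -/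
theorem involution_unique {n : ℕ} {K : NF} (hK : Remaining n K) {z w : Aut K} (hz1 : z ≠ 1)
    (hw1 : w ≠ 1) (hz : z * z = 1) (hw : w * w = 1) : z = w := by
  have := finite_aut K hK.fin
  by_contra hne
  exact hK.norm (hasNormRelation_of_involutions hz hw hz1 hw1 hne)

theorem autCyclic {n : ℕ} {K : NF} (hK : Remaining n K) : AutCyclic K := by
  intro q r hq hr B hB
  have := finite_aut K hK.fin
  by_contra hcyc
  exact hK.norm (hasNormRelation hq hr B hB hcyc)

/-- The Galois fields among the remaining fields are totally real if `n` is odd, and CM fields if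
`n` is even. -/
theorem galois {n : ℕ} {K : NF} (hK : Remaining n K) (hN : Normal ℚ K) :
    (Odd n → TotReal K) ∧ (Even n → IsCM K) := by
  obtain ⟨σ⟩ : Nonempty (K →+* ℂ) :=
    ⟨(IsAlgClosed.lift (M := ℂ) (R := ℚ) (S := K)).toRingHom⟩
  obtain ⟨c, hc⟩ := exists_aut hN σ ((starRingEnd ℂ).comp σ)
  have hc2 : c * c = 1 := by
    apply aut_ext
    intro x
    apply σ.injective
    rw [ap_mul, hc]
    simp only [RingHom.comp_apply]
    have h1 := hc x
    simp only [RingHom.comp_apply] at h1
    rw [h1, Complex.conj_conj]
    rfl
  -- `c` is complex conjugation in all embeddings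
  have hall : IsConj K c := by
    intro τ x
    suffices hs : (show K →+* ℂ from τ) (ap c x) = (starRingEnd ℂ) ((show K →+* ℂ from τ) x) by
      unfold ev
      rw [hs]
      exact ⟨rfl, rfl⟩
    obtain ⟨t, ht⟩ := exists_aut hN σ τ
    rw [← ht, ← ht]
    have h1 := hc (ap t x)
    simp only [RingHom.comp_apply] at h1
    rw [← h1]
    congr 1
    rw [← ap_mul, ← ap_mul]
    congr 1
    by_cases hc1 : c = 1
    · rw [hc1, mul_one, one_mul]
    · have h2 : t * c * t⁻¹ = c := by
        apply involution_unique hK _ hc1 _ hc2
        · intro h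
          apply hc1
          have h3 : t * c = t := by
            have := congrArg (· * t) h
            simpa [mul_assoc] using this
          exact mul_eq_left.mp h3
        · have : t * c * t⁻¹ * (t * c * t⁻¹) = t * (c * c) * t⁻¹ := by group
          rw [this, hc2, mul_one, mul_inv_cancel]
      have := congrArg (· * t) h2
      simpa [mul_assoc] using this
  constructor
  · intro hn
    by_cases hc1 : c = 1
    · rw [hc1] at hall
      exact totReal_of_isConj_one hall
    · exact absurd ⟨c, hc1, hall⟩ (hK.odd hn)
  · intro hn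
    refine ⟨c, ?_, hall⟩
    intro hc1
    rw [hc1] at hall
    exact hK.even hn (totReal_of_isConj_one hall)

end Pool.Agent.TH613.ZK
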