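import Pool.Agent.TH613.MU.Main
import Mathlib.Algebra.MonoidAlgebra.Basic
import Mathlib.Algebra.BigOperators.Finprod
import Mathlib.GroupTheory.OrderOfElement

/-!
# Norm relations and properties of number fields
-/

set_option autoImplicit false

namespace Pool.Agent.TH613.ZK

open Pool.Agent.TH613.MU

section Group

variable {A : Type} [Group A]

/-- the norm element `∑ g`, `g ∈ C`, of `ℚ[A]` -/
noncomputable def normElt (C : Subgroup A) : MonoidAlgebra ℚ A :=
  ∑ᶠ g : C, MonoidAlgebra.single (g : A) (1 : ℚ)

variable (A) in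
/-- `A` admits a norm relation: `1 = ∑ c_i a_i N_{C_i} b_i` in `ℚ[A]`, with rational `c_i`,
`a_i, b_i ∈ A` and nontrivial subgroups `C_i`. -/
def HasNormRelation : Prop :=
  (1 : MonoidAlgebra ℚ A) ∈ Submodule.span ℚ {x | ∃ (C : Subgroup A) (a b : A), C ≠ ⊥ ∧
    x = MonoidAlgebra.single a 1 * normElt C * MonoidAlgebra.single b 1}

theorem coeff_normElt [Finite A] (C : Subgroup A) (h : A) :
    (normElt C).coeff h = open Classical in if h ∈ C then (1 : ℚ) else 0 := by
  classical
  let _ := Fintype.ofFinite C
  rw [normElt, finsum_eq_sum_of_fintype]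
  simp only [MonoidAlgebra.coeff_sum, Finsupp.finsetSum_apply, MonoidAlgebra.coeff_single,
    Finsupp.single_apply]
  by_cases hC : h ∈ C
  · rw [if_pos hC, Finset.sum_eq_single (⟨h, hC⟩ : C)]
    · simp
    · intro g _ hg
      rw [if_neg]
      intro he
      exact hg (Subtype.ext he)
    · intro hn
      exact absurd (Finset.mem_univ _) hn
  · rw [if_neg hC]
    apply Finset.sum_eq_zero
    intro g _
    rw [if_neg]
    rintro rfl
    exact hC g.2

theorem prime_order {q r d : ℕ} (hq : q.Prime) (hr : r.Prime) (hd : d ∣ q * r) (h1 : d ≠ 1)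
    (h2 : d ≠ q * r) : d.Prime := by
  obtain ⟨a, b, ha, hb, rfl⟩ := (Nat.dvd_mul).mp hd
  rcases (Nat.dvd_prime hq).mp ha with rfl | rfl
  · rcases (Nat.dvd_prime hr).mp hb with rfl | rfl
    · simp at h1
    · simpa using hr
  · rcases (Nat.dvd_prime hr).mp hb with rfl | rfl
    · simpa using hq
    · exact absurd rfl h2

/-- A group with a subgroup of order `q r`, `q` and `r` primes, which is not cyclic admits a norm
relation. -/
theorem hasNormRelation [Finite A] {q r : ℕ} (hq : q.Prime) (hr : r.Prime) (B : Subgroup A)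
    (hB : Nat.card B = q * r) (hcyc : ¬ IsCyclic B) : HasNormRelation A := by
  classical
  have hfs : Finite (Subgroup A) := inferInstance
  set 𝒮 : Finset (Subgroup A) := (Set.toFinite {C : Subgroup A | C ≤ B ∧ (Nat.card C).Prime}).toFinset
    with h𝒮
  have hmem : ∀ C, C ∈ 𝒮 ↔ C ≤ B ∧ (Nat.card C).Prime := by
    intro C; rw [h𝒮]; simp
  -- nontrivial elements of `B` have prime order
  have hord : ∀ h ∈ B, h ≠ 1 → (orderOf h).Prime := by
    intro h hh h1
    have hd : orderOf h ∣ q * r := by
      rw [← hB]
      have := orderOf_dvd_natCard (⟨h, hh⟩ : B)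
      rwa [Subgroup.orderOf_mk] at this
    refine prime_order hq hr hd ?_ ?_
    · intro he
      exact h1 (orderOf_eq_one_iff.mp he)
    · intro he
      apply hcyc
      refine isCyclic_of_orderOf_eq_card (⟨h, hh⟩ : B) ?_
      rw [Subgroup.orderOf_mk, he, hB]
  -- a nontrivial `h ∈ B` lies in exactly one member of `𝒮`
  have huniq : ∀ h ∈ B, h ≠ 1 → ∀ C ∈ 𝒮, h ∈ C ↔ C = Subgroup.zpowers h := by
    intro h hh h1 C hC
    rw [hmem] at hC
    constructor
    · intro hhC
      have hle : Subgroup.zpowers h ≤ C := by
        rw [Subgroup.zpowers_le]; exact hhC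
      refine (Subgroup.eq_of_le_of_card_ge hle ?_).symm
      rw [Nat.card_zpowers]
      have hdvd : orderOf h ∣ Nat.card C := by
        rw [← Nat.card_zpowers]
        exact Subgroup.card_dvd_of_le hle
      rcases (Nat.dvd_prime hC.2).mp hdvd with he | he
      · exact absurd (orderOf_eq_one_iff.mp he) h1
      · exact he.ge
    · rintro rfl
      exact Subgroup.mem_zpowers h
  have hz : ∀ h ∈ B, h ≠ 1 → Subgroup.zpowers h ∈ 𝒮 := by
    intro h hh h1
    rw [hmem]
    refine ⟨by rw [Subgroup.zpowers_le]; exact hh, ?_⟩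
    rw [Nat.card_zpowers]
    exact hord h hh h1
  have hqr : 1 < q * r := lt_of_lt_of_le hq.one_lt (Nat.le_mul_of_pos_right q hr.pos)
  -- at least two members
  have hcard : 2 ≤ 𝒮.card := by
    have hB1 : 1 < Nat.card B := by rw [hB]; exact hqr
    obtain ⟨h, hh, h1⟩ : ∃ h ∈ B, h ≠ 1 := by
      by_contra hcon
      push Not at hcon
      have : B = ⊥ := by
        rw [eq_bot_iff]
        intro x hx
        rw [Subgroup.mem_bot]
        exact hcon x hx
      rw [this] at hB1
      simp at hB1
    have hC := hz h hh h1
    obtain ⟨g, hg, hgC⟩ : ∃ g ∈ B, g ∉ Subgroup.zpowers h := by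
      by_contra hcon
      push Not at hcon
      have hle : B ≤ Subgroup.zpowers h := hcon
      have he : Subgroup.zpowers h = B := le_antisymm (by rw [Subgroup.zpowers_le]; exact hh) hle
      apply hcyc
      rw [← he]
      infer_instance
    have hg1 : g ≠ 1 := by
      rintro rfl
      exact hgC (one_mem _)
    have hD := hz g hg hg1
    have hne : Subgroup.zpowers h ≠ Subgroup.zpowers g := by
      intro he
      apply hgC
      rw [he]
      exact Subgroup.mem_zpowers g
    exact Finset.one_lt_card.mpr ⟨_, hC, _, hD, hne⟩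
  have hm : ((𝒮.card : ℚ) - 1) ≠ 0 := by
    have : (2 : ℚ) ≤ 𝒮.card := by exact_mod_cast hcard
    intro h0
    linarith
  have key : ((𝒮.card : ℚ) - 1) • (1 : MonoidAlgebra ℚ A) = ∑ C ∈ 𝒮, normElt C - normElt B := by
    apply MonoidAlgebra.coeff_injective
    ext h
    simp only [MonoidAlgebra.coeff_smul_apply, MonoidAlgebra.coeff_sub, MonoidAlgebra.coeff_sum,
      Finsupp.finsetSum_apply, Finsupp.coe_sub, Pi.sub_apply, coeff_normElt]
    rw [MonoidAlgebra.one_def, MonoidAlgebra.coeff_single, Finsupp.single_apply]
    by_cases h1 : h = 1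
    · subst h1
      rw [if_pos rfl, if_pos (one_mem B)]
      have : ∑ C ∈ 𝒮, (if (1 : A) ∈ C then (1 : ℚ) else 0) = 𝒮.card := by
        rw [Finset.sum_congr rfl (fun C _ => if_pos (one_mem C))]
        simp
      rw [this]
      simp
    · rw [if_neg (Ne.symm h1)]
      by_cases hh : h ∈ B
      · rw [if_pos hh]
        have : ∑ C ∈ 𝒮, (if h ∈ C then (1 : ℚ) else 0) = 1 := by
          rw [Finset.sum_eq_single (Subgroup.zpowers h)]
          · rw [if_pos (Subgroup.mem_zpowers h)]
          · intro C hC hne
            rw [if_neg]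
            intro hhC
            exact hne ((huniq h hh h1 C hC).mp hhC)
          · intro hn
            exact absurd (hz h hh h1) hn
        rw [this]
        simp
      · rw [if_neg hh]
        have : ∑ C ∈ 𝒮, (if h ∈ C then (1 : ℚ) else 0) = 0 := by
          apply Finset.sum_eq_zero
          intro C hC
          rw [if_neg]
          intro hhC
          exact hh (((hmem C).mp hC).1 hhC)
        rw [this]
        simp
  have hgen : ∀ C : Subgroup A, C ≠ ⊥ → normElt C ∈ Submodule.span ℚ
      {x | ∃ (C : Subgroup A) (a b : A), C ≠ ⊥ ∧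
        x = MonoidAlgebra.single a 1 * normElt C * MonoidAlgebra.single b 1} := by
    intro C hC
    apply Submodule.subset_span
    refine ⟨C, 1, 1, hC, ?_⟩
    rw [← MonoidAlgebra.one_def, one_mul, mul_one]
  have hne : ∀ C : Subgroup A, 1 < Nat.card C → C ≠ ⊥ := by
    intro C hC he
    rw [he] at hC
    simp at hC
  unfold HasNormRelation
  have e1 : (1 : MonoidAlgebra ℚ A) = ((𝒮.card : ℚ) - 1)⁻¹ •
      (∑ C ∈ 𝒮, normElt C - normElt B) := by
    rw [← key, smul_smul, inv_mul_cancel₀ hm, one_smul]
  rw [e1]
  apply Submodule.smul_mem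
  apply Submodule.sub_mem
  · apply Submodule.sum_mem
    intro C hC
    exact hgen C (hne C ((hmem C).mp hC).2.one_lt)
  · exact hgen B (hne B (by rw [hB]; exact hqr))

end Group

/-- `P` passes along norm relations: if `B` is a group of automorphisms of the number field `L`
which admits a norm relation, and `P` holds for `L^C` for each nontrivial subgroup `C` of `B`, then
`P` holds for `L`. -/
def PassesNormRelations (P : NF → Prop) : Prop :=
  ∀ L : NF, Fin L → HasNormRelation (Aut L) →
    (∀ C : Subgroup (Aut L), C ≠ ⊥ → P (fix L C)) → P L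

theorem finite_aut (L : NF) (hL : Fin L) : Finite (Aut L) := by
  have : FiniteDimensional ℚ L := hL
  exact inferInstanceAs (Finite (L ≃ₐ[ℚ] L))

/-- It is enough to prove `P` for the number fields whose automorphism group has no norm relation;
all groups of automorphisms of order `q r` of these fields are cyclic. -/
theorem main (P : NF → Prop) (h : PassesNormRelations P) :
    ((∀ K : NF, Fin K → P K) ↔ ∀ K : NF, Fin K → ¬ HasNormRelation (Aut K) → P K) ∧
      ∀ K : NF, Fin K → ¬ HasNormRelation (Aut K) → AutCyclic K := by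
  refine ⟨⟨fun hall K hK _ => hall K hK, ?_⟩, ?_⟩
  · intro hT
    have key : ∀ n : ℕ, ∀ K : NF, Fin K → deg K = n → P K := by
      intro n
      induction n using Nat.strong_induction_on with
      | _ n ih =>
        intro K hK hn
        by_cases hR : HasNormRelation (Aut K)
        · refine h K hK hR ?_
          intro C hC
          have hcard := one_lt_card K hK hC
          have hpos := deg_pos _ (finite_fix K hK C)
          have hlt : deg (fix K C) < n := by
            rw [← hn, ← deg_fix K hK C]
            exact lt_mul_of_one_lt_right hpos hcard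
          exact ih _ hlt _ (finite_fix K hK C) rfl
        · exact hT K hK hR
    intro K hK
    exact key _ K hK rfl
  · intro K hK hR q r hq hr B hB
    have := finite_aut K hK
    by_contra hcyc
    exact hR (hasNormRelation hq hr B hB hcyc)

end Pool.Agent.TH613.ZK
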