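import Pool.Agent.TH613.ZK.Main
import Mathlib.Algebra.MonoidAlgebra.Basic
import Mathlib.Algebra.BigOperators.Finprod
import Mathlib.Analysis.Complex.Basic
import Mathlib.Tactic.Linarith
import Mathlib.FieldTheory.Normal.Defs

/-!
# Polylogarithms and rational higher K-groups of number fields
-/

set_option autoImplicit false

namespace Pool.Agent.TH613.ZK

open Pool.Agent.TH613.MU

section Group

variable {A : Type} [Group A]

/-- the `ℚ`-span of the elements `a N_C b`, `C ≠ 1` -/
noncomputable def normIdeal (A : Type) [Group A] : Submodule ℚ (MonoidAlgebra ℚ A) :=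
  Submodule.span ℚ {x | ∃ (C : Subgroup A) (a b : A), C ≠ ⊥ ∧
    x = MonoidAlgebra.single a 1 * normElt C * MonoidAlgebra.single b 1}

theorem single_mul_mem (a : A) {x : MonoidAlgebra ℚ A} (hx : x ∈ normIdeal A) :
    MonoidAlgebra.single a 1 * x ∈ normIdeal A := by
  unfold normIdeal at hx ⊢
  induction hx using Submodule.span_induction with
  | mem x hx =>
    obtain ⟨C, a', b, hC, rfl⟩ := hx
    apply Submodule.subset_span
    refine ⟨C, a * a', b, hC, ?_⟩
    rw [← mul_assoc, ← mul_assoc, MonoidAlgebra.single_mul_single, one_mul]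
  | zero => rw [mul_zero]; exact Submodule.zero_mem _
  | add x y _ _ hx hy => rw [mul_add]; exact Submodule.add_mem _ hx hy
  | smul c x _ hx => rw [mul_smul_comm]; exact Submodule.smul_mem _ _ hx

theorem normElt_mem {C : Subgroup A} (hC : C ≠ ⊥) : normElt C ∈ normIdeal A := by
  apply Submodule.subset_span
  refine ⟨C, 1, 1, hC, ?_⟩
  rw [← MonoidAlgebra.one_def, one_mul, mul_one]

theorem mem_zpowers_inv {z : A} (hz : z * z = 1) (h : A) :
    h ∈ Subgroup.zpowers z ↔ h = 1 ∨ h = z := by
  constructor
  · intro hh
    obtain ⟨k, rfl⟩ := Subgroup.mem_zpowers_iff.mp hh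
    have hz2 : z ^ (2 : ℤ) = 1 := by
      rw [zpow_ofNat, pow_two, hz]
    rcases Int.even_or_odd' k with ⟨c, rfl | rfl⟩
    · left
      rw [zpow_mul, hz2, one_zpow]
    · right
      rw [zpow_add, zpow_mul, hz2, one_zpow, one_mul, zpow_one]
  · rintro (rfl | rfl)
    · exact one_mem _
    · exact Subgroup.mem_zpowers _

theorem normElt_involution [Finite A] {z : A} (hz : z * z = 1) (h1 : z ≠ 1) :
    normElt (Subgroup.zpowers z) = 1 + MonoidAlgebra.single z 1 := by
  classical
  apply MonoidAlgebra.coeff_injective
  ext h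
  rw [coeff_normElt]
  simp only [MonoidAlgebra.coeff_add, Finsupp.coe_add, Pi.add_apply]
  rw [MonoidAlgebra.one_def, MonoidAlgebra.coeff_single, MonoidAlgebra.coeff_single,
    Finsupp.single_apply, Finsupp.single_apply]
  by_cases e1 : h = 1
  · subst e1
    rw [if_pos (one_mem _), if_pos rfl, if_neg h1, add_zero]
  · rw [if_neg (Ne.symm e1), zero_add]
    by_cases e2 : z = h
    · subst e2
      rw [if_pos (Subgroup.mem_zpowers _), if_pos rfl]
    · rw [if_neg e2, if_neg]
      rw [mem_zpowers_inv hz]
      rintro (e | e)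
      · exact e1 e
      · exact e2 e.symm

/-- Two distinct involutions give a norm relation. -/
theorem hasNormRelation_of_involutions [Finite A] {z w : A} (hz : z * z = 1) (hw : w * w = 1)
    (hz1 : z ≠ 1) (hw1 : w ≠ 1) (hne : z ≠ w) : HasNormRelation A := by
  classical
  have hZ : Subgroup.zpowers z ≠ ⊥ := by
    intro h; exact hz1 (Subgroup.zpowers_eq_bot.mp h)
  have hW : Subgroup.zpowers w ≠ ⊥ := by
    intro h; exact hw1 (Subgroup.zpowers_eq_bot.mp h)
  set s : A → MonoidAlgebra ℚ A := fun a => MonoidAlgebra.single a 1 with hs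
  have hsmul : ∀ a b, s (a * b) = s a * s b := by
    intro a b
    simp only [hs, MonoidAlgebra.single_mul_single, one_mul]
  have hs1 : s 1 = 1 := by rw [hs]; exact MonoidAlgebra.one_def.symm
  have hI : ∀ a, ∀ x ∈ normIdeal A, s a * x ∈ normIdeal A := fun a x hx => single_mul_mem a hx
  have ez := normElt_mem hZ
  rw [normElt_involution hz hz1] at ez
  have ew := normElt_mem hW
  rw [normElt_involution hw hw1] at ew
  -- `z w - 1` lies in the ideal
  have h1 : s (z * w) - 1 ∈ normIdeal A := by
    have e : s (z * w) - 1 = s z * (1 + s w) - (1 + s z) := by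
      rw [hsmul]; noncomm_ring
    rw [e]
    exact Submodule.sub_mem _ (hI z _ ew) ez
  let S : Subgroup A :=
    { carrier := {g | s g - 1 ∈ normIdeal A}
      mul_mem' := by
        intro a b ha hb
        simp only [Set.mem_ofPred_eq] at ha hb ⊢
        have e : s (a * b) - 1 = s a * (s b - 1) + (s a - 1) := by
          rw [hsmul]; noncomm_ring
        rw [e]
        exact Submodule.add_mem _ (hI a _ hb) ha
      one_mem' := by
        simp only [Set.mem_ofPred_eq]
        rw [hs1, sub_self]; exact Submodule.zero_mem _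
      inv_mem' := by
        intro a ha
        simp only [Set.mem_ofPred_eq] at ha ⊢
        have e : s a⁻¹ - 1 = -(s a⁻¹ * (s a - 1)) := by
          rw [mul_sub, ← hsmul, inv_mul_cancel, hs1, mul_one, neg_sub]
        rw [e]
        exact Submodule.neg_mem _ (hI _ _ ha) }
  have h2 : ∀ g ∈ Subgroup.zpowers (z * w), s g - 1 ∈ normIdeal A := by
    have hle : Subgroup.zpowers (z * w) ≤ S := by
      rw [Subgroup.zpowers_le]
      exact h1
    exact fun g hg => hle hg
  have hC : Subgroup.zpowers (z * w) ≠ ⊥ := by
    intro h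
    have := Subgroup.zpowers_eq_bot.mp h
    apply hne
    have h3 : z = w⁻¹ := eq_inv_of_mul_eq_one_left this
    rw [h3]
    exact (eq_inv_of_mul_eq_one_left hw).symm
  let _ := Fintype.ofFinite (Subgroup.zpowers (z * w))
  have h3 := normElt_mem hC
  have h4 : normElt (Subgroup.zpowers (z * w)) -
      (Fintype.card (Subgroup.zpowers (z * w)) : ℚ) • (1 : MonoidAlgebra ℚ A) ∈ normIdeal A := by
    have e : normElt (Subgroup.zpowers (z * w)) -
      (Fintype.card (Subgroup.zpowers (z * w)) : ℚ) • (1 : MonoidAlgebra ℚ A) =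
        ∑ g : Subgroup.zpowers (z * w), (s (g : A) - 1) := by
      rw [normElt, finsum_eq_sum_of_fintype, Finset.sum_sub_distrib, Finset.sum_const,
        Finset.card_univ, ← Nat.cast_smul_eq_nsmul ℚ]
    rw [e]
    exact Submodule.sum_mem _ (fun g _ => h2 g g.2)
  have h5 : (Fintype.card (Subgroup.zpowers (z * w)) : ℚ) • (1 : MonoidAlgebra ℚ A) ∈
      normIdeal A := by
    have := Submodule.sub_mem _ h3 h4
    rwa [sub_sub_cancel] at this
  have hcard : (Fintype.card (Subgroup.zpowers (z * w)) : ℚ) ≠ 0 := by
    exact_mod_cast Fintype.card_ne_zero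
  have h6 := Submodule.smul_mem _ (Fintype.card (Subgroup.zpowers (z * w)) : ℚ)⁻¹ h5
  rw [smul_smul, inv_mul_cancel₀ hcard, one_smul] at h6
  exact h6

end Group

/-- the value of an automorphism -/
noncomputable def ap {L : NF} (z : Aut L) (x : L) : L :=
  (@AlgEquiv.toEquiv ℚ L L _ _ _ _ _ z).toFun x

/-- the embeddings of `L` into `ℂ` -/
def Emb (L : NF) : Type := L →+* ℂ

/-- the value of an embedding -/
noncomputable def ev {L : NF} (σ : Emb L) (x : L) : ℂ := (show L →+* ℂ from σ) x

/-- `z` is complex conjugation in each embedding of `L` into `ℂ`. -/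
def IsConj (L : NF) (z : Aut L) : Prop :=
  ∀ (σ : Emb L) (x : L), (ev σ (ap z x)).re = (ev σ x).re ∧ (ev σ (ap z x)).im = -(ev σ x).im

/-- `L` is totally real. -/
def TotReal (L : NF) : Prop := ∀ (σ : Emb L) (x : L), (ev σ x).im = 0

/-- `L` is a CM field. -/
def IsCM (L : NF) : Prop := ∃ z : Aut L, z ≠ 1 ∧ IsConj L z

/-- Rational vector spaces `V L`, one for each algebraic extension `L` of `ℚ`, with maps `act g` for
the automorphisms `g` of `L`, and restriction and transfer maps between `V (L^C)` and `V L`. In
practice `V L = K_{2n-1}(L) ⊗ ℚ`. -/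
structure KTheory where
  /-- the vector spaces -/
  V : NF → Type
  [grp : ∀ L, AddCommGroup (V L)]
  [mod : ∀ L, Module ℚ (V L)]
  /-- automorphisms -/
  act : ∀ L : NF, Aut L → V L →ₗ[ℚ] V L
  /-- restriction -/
  res : ∀ (L : NF) (C : Subgroup (Aut L)), V (fix L C) →ₗ[ℚ] V L
  /-- transfer -/
  tr : ∀ (L : NF) (C : Subgroup (Aut L)), V L →ₗ[ℚ] V (fix L C)

attribute [instance] KTheory.grp KTheory.mod

/-- Formal properties of `K_{2n-1}(L) ⊗ ℚ`, for number fields `L`. -/
structure IsKTheory (n : ℕ) (T : KTheory) : Prop where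
  /-- the identity acts trivially -/
  act_one : ∀ L : NF, Fin L → ∀ x : T.V L, T.act L 1 x = x
  /-- `Aut L` acts -/
  act_mul : ∀ L : NF, Fin L → ∀ (g h : Aut L) (x : T.V L),
    T.act L (g * h) x = T.act L g (T.act L h x)
  /-- restriction after transfer is the norm -/
  res_tr : ∀ L : NF, Fin L → ∀ (C : Subgroup (Aut L)) (x : T.V L),
    T.res L C (T.tr L C x) = ∑ᶠ g : C, T.act L g x
  /-- Borel: complex conjugation acts as `(-1) ^ (n - 1)` -/
  conj : ∀ L : NF, Fin L → ∀ z : Aut L, IsConj L z → ∀ x : T.V L,
    T.act L z x = (-1 : ℚ) ^ (n + 1) • x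

/-- The subspaces `W L` of `V L` are stable under automorphisms and restriction. In practice `W L`
is the image of `l_n`. -/
structure IsPolylog (T : KTheory) (W : ∀ L : NF, Submodule ℚ (T.V L)) : Prop where
  /-- stable under automorphisms -/
  act_mem : ∀ L : NF, Fin L → ∀ (g : Aut L), ∀ x ∈ W L, T.act L g x ∈ W L
  /-- stable under restriction -/
  res_mem : ∀ L : NF, Fin L → ∀ (C : Subgroup (Aut L)), ∀ x ∈ W (fix L C), T.res L C x ∈ W L

section Reduction

variable {n : ℕ} {T : KTheory} {W : ∀ L : NF, Submodule ℚ (T.V L)}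

/-- the action of the group ring -/
noncomputable def actHom (hT : IsKTheory n T) (L : NF) (hL : Fin L) :
    Aut L →* Module.End ℚ (T.V L) where
  toFun g := T.act L g
  map_one' := by
    ext x
    exact hT.act_one L hL x
  map_mul' g h := by
    ext x
    exact hT.act_mul L hL g h x

theorem norm_mem (hT : IsKTheory n T) (hW : IsPolylog T W) (L : NF) (hL : Fin L)
    (h : ∀ C : Subgroup (Aut L), C ≠ ⊥ → W (fix L C) = ⊤) {u : MonoidAlgebra ℚ (Aut L)}
    (hu : u ∈ normIdeal (Aut L)) (x : T.V L) :
    (MonoidAlgebra.lift ℚ (Module.End ℚ (T.V L)) (Aut L) (actHom hT L hL) u) x ∈ W L := by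
  have hfin := finite_aut L hL
  unfold normIdeal at hu
  induction hu using Submodule.span_induction generalizing x with
  | mem u hu =>
    obtain ⟨C, a, b, hC, rfl⟩ := hu
    rw [map_mul, map_mul, MonoidAlgebra.lift_single, MonoidAlgebra.lift_single, one_smul, one_smul]
    change T.act L a ((MonoidAlgebra.lift ℚ (Module.End ℚ (T.V L)) (Aut L) (actHom hT L hL)
      (normElt C)) (T.act L b x)) ∈ W L
    apply hW.act_mem L hL
    have e : ∀ y : T.V L, (MonoidAlgebra.lift ℚ (Module.End ℚ (T.V L)) (Aut L) (actHom hT L hL)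
        (normElt C)) y = T.res L C (T.tr L C y) := by
      intro y
      rw [hT.res_tr L hL C y]
      let _ := Fintype.ofFinite C
      rw [normElt, finsum_eq_sum_of_fintype, finsum_eq_sum_of_fintype, map_sum,
        LinearMap.sum_apply]
      apply Finset.sum_congr rfl
      intro g _
      rw [MonoidAlgebra.lift_single, one_smul]
      rfl
    rw [e]
    apply hW.res_mem L hL
    rw [h C hC]
    exact Submodule.mem_top
  | zero => rw [map_zero]; exact Submodule.zero_mem _
  | add u v _ _ hu hv =>
    rw [map_add]
    exact Submodule.add_mem _ (hu x) (hv x)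
  | smul c u _ hu =>
    rw [map_smul]
    exact Submodule.smul_mem _ _ (hu x)

theorem isConj_one {L : NF} (h : TotReal L) : IsConj L 1 := by
  intro σ x
  have h1 : ap (1 : Aut L) x = x := rfl
  rw [h1]
  refine ⟨rfl, ?_⟩
  rw [h σ x, neg_zero]

theorem totReal_of_isConj_one {L : NF} (h : IsConj L 1) : TotReal L := by
  intro σ x
  have h1 : ap (1 : Aut L) x = x := rfl
  have h2 := (h σ x).2
  rw [h1] at h2
  linarith

/-- The fields to which the assertion `W = V` reduces. -/
structure Remaining (n : ℕ) (K : NF) : Prop where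
  /-- a number field -/
  fin : Fin K
  /-- no norm relation -/
  norm : ¬ HasNormRelation (Aut K)
  /-- if `n` is even, `K` is not totally real -/
  even : Even n → ¬ TotReal K
  /-- if `n` is odd, `K` is not a CM field -/
  odd : Odd n → ¬ IsCM K

theorem reduction (hT : IsKTheory n T) (hW : IsPolylog T W) :
    (∀ K : NF, Fin K → W K = ⊤) ↔ ∀ K : NF, Remaining n K → W K = ⊤ := by
  refine ⟨fun hall K hK => hall K hK.fin, ?_⟩
  intro hR
  have key : ∀ m : ℕ, ∀ K : NF, Fin K → deg K = m → W K = ⊤ := by
    intro m
    induction m using Nat.strong_induction_on with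
    | _ m ih =>
      intro K hK hm
      have hsub : ∀ C : Subgroup (Aut K), C ≠ ⊥ → W (fix K C) = ⊤ := by
        intro C hC
        have hcard := one_lt_card K hK hC
        have hpos := deg_pos _ (finite_fix K hK C)
        have hlt : deg (fix K C) < m := by
          rw [← hm, ← deg_fix K hK C]
          exact lt_mul_of_one_lt_right hpos hcard
        exact ih _ hlt _ (finite_fix K hK C) rfl
      by_cases hN : HasNormRelation (Aut K)
      · rw [eq_top_iff]
        intro x _
        have := norm_mem hT hW K hK hsub (u := 1) hN x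
        rwa [map_one] at this
      by_cases hE : Even n ∧ TotReal K
      · rw [eq_top_iff]
        intro x _
        have h1 := hT.conj K hK 1 (isConj_one hE.2) x
        rw [hT.act_one K hK, Odd.neg_one_pow (Even.add_one hE.1), neg_smul, one_smul] at h1
        have h2 : (2 : ℚ) • x = 0 := by
          rw [two_smul]
          nth_rewrite 1 [h1]
          exact neg_add_cancel x
        have h3 : x = 0 := by
          have := congrArg (fun y => (2 : ℚ)⁻¹ • y) h2
          simpa [smul_smul] using this
        rw [h3]
        exact Submodule.zero_mem _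
      by_cases hO : Odd n ∧ IsCM K
      · obtain ⟨hn, z, hz1, hz⟩ := hO
        have hfin := finite_aut K hK
        have hact : ∀ x, T.act K z x = x := by
          intro x
          rw [hT.conj K hK z hz x, Even.neg_one_pow (Odd.add_one hn), one_smul]
        let S : Subgroup (Aut K) :=
          { carrier := {g | ∀ x, T.act K g x = x}
            mul_mem' := by
              intro a b ha hb x
              rw [hT.act_mul K hK, hb, ha]
            one_mem' := fun x => hT.act_one K hK x
            inv_mem' := by
              intro a ha x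
              have := hT.act_mul K hK a⁻¹ a x
              rw [inv_mul_cancel, hT.act_one K hK, ha] at this
              exact this.symm }
        have hle : Subgroup.zpowers z ≤ S := by
          rw [Subgroup.zpowers_le]
          exact hact
        have hne : Subgroup.zpowers z ≠ ⊥ := fun h => hz1 (Subgroup.zpowers_eq_bot.mp h)
        let _ := Fintype.ofFinite (Subgroup.zpowers z)
        rw [eq_top_iff]
        intro x _
        have h1 := hT.res_tr K hK (Subgroup.zpowers z) x
        have h2 : ∑ᶠ g : Subgroup.zpowers z, T.act K g x =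
            (Fintype.card (Subgroup.zpowers z) : ℚ) • x := by
          rw [finsum_eq_sum_of_fintype, Finset.sum_congr rfl (fun g _ => hle g.2 x),
            Finset.sum_const, Finset.card_univ, ← Nat.cast_smul_eq_nsmul ℚ]
        rw [h2] at h1
        have h3 : (Fintype.card (Subgroup.zpowers z) : ℚ) • x ∈ W K := by
          rw [← h1]
          apply hW.res_mem K hK
          rw [hsub _ hne]
          exact Submodule.mem_top
        have hcard : (Fintype.card (Subgroup.zpowers z) : ℚ) ≠ 0 := by
          exact_mod_cast Fintype.card_ne_zero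
        have h4 := Submodule.smul_mem _ (Fintype.card (Subgroup.zpowers z) : ℚ)⁻¹ h3
        rwa [smul_smul, inv_mul_cancel₀ hcard, one_smul] at h4
      · exact hR K ⟨hK, hN, fun he ht => hE ⟨he, ht⟩, fun ho hc => hO ⟨ho, hc⟩⟩
  intro K hK
  exact key _ K hK rfl

end Reduction

end Pool.Agent.TH613.ZK
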